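import Mathlib

set_option autoImplicit false

namespace Pool.Agent.H.MP_82bed6_co

open Configuration

/-- `M` is a Hadamard difference set of order `2^(2b-2)` in the abelian group `G`
(written multiplicatively): it has `2^(2b-1) - 2^(b-1)` elements and every `g ≠ 1` has exactly
`2^(2b-2) - 2^(b-1)` representations `g = m * m'⁻¹` with `m, m' ∈ M`. -/
def IsHadamardDiffSet (b : ℕ) {G : Type} [CommGroup G] [DecidableEq G] (M : Finset G) : Prop :=
  M.card = 2 ^ (2 * b - 1) - 2 ^ (b - 1) ∧
    ∀ g : G, g ≠ 1 →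
      ((M ×ˢ M).filter (fun p => g = p.1 * p.2⁻¹)).card = 2 ^ (2 * b - 2) - 2 ^ (b - 1)

/-- A set `K` of points meeting every line in either `0` or `d` points. -/
def IsMaximalArc (P L : Type*) [Membership P L] (d : ℕ) (K : Set P) : Prop :=
  ∀ l : L, {p | p ∈ K ∧ p ∈ l}.ncard = 0 ∨ {p | p ∈ K ∧ p ∈ l}.ncard = d

/-- `dev M` embeds into the plane `(P, L)` as a set of maximal arcs of degree `2^(b-1)`:
there is an injective map `φ` from `G` to the points such that the image of every translate
`M g = {m * g | m ∈ M}` is a maximal arc of degree `2^(b-1)`. -/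
def EmbedsAsMaximalArcs (b : ℕ) {G : Type} [CommGroup G] (M : Finset G)
    (P L : Type*) [Membership P L] : Prop :=
  ∃ φ : G → P, Function.Injective φ ∧
    ∀ g : G, IsMaximalArc P L (2 ^ (b - 1)) (φ '' {x | ∃ m ∈ M, x = m * g})

/-- If the `F₂`-span of the blocks of `dev M` contains a nonempty set with at most `q + 1` points,
then `dev M` does not embed in a projective plane of order `q = 2^b`. -/
theorem no_embed {G : Type} [CommGroup G] [Fintype G] [DecidableEq G] (b : ℕ) (hb : 2 ≤ b)
    (M K : Finset G) {ι : Type} [Fintype ι] (t : ι → G)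
    (x0 : G) (hx0 : x0 ∈ K) (hKc : K.card ≤ 2 ^ b + 1)
    (hspan : ∀ x : G, (∑ i, if x * (t i)⁻¹ ∈ M then (1 : ZMod 2) else 0)
      = if x ∈ K then 1 else 0)
    (P L : Type*) [Membership P L] [ProjectivePlane P L] [Finite P] [Finite L]
    (hord : ProjectivePlane.order P L = 2 ^ b) :
    ¬ EmbedsAsMaximalArcs b M P L := by
  classical
  rintro ⟨φ, hφ, harc⟩
  have key : ∀ l : L, φ x0 ∈ l → ∃ x1 ∈ K, x1 ≠ x0 ∧ φ x1 ∈ l := by
    intro l hl
    -- number of points of `K` on `l` is even
    have heven : (((K.filter (fun x => φ x ∈ l)).card : ℕ) : ZMod 2) = 0 := by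
      have h1 : (((K.filter (fun x => φ x ∈ l)).card : ℕ) : ZMod 2)
          = ∑ x ∈ Finset.univ.filter (fun x => φ x ∈ l), (if x ∈ K then (1 : ZMod 2) else 0) := by
        rw [Finset.sum_boole]
        congr 2
        ext x
        simp [and_comm]
      rw [h1]
      simp_rw [← hspan]
      rw [Finset.sum_comm]
      apply Finset.sum_eq_zero
      intro i _
      generalize t i = g
      rw [Finset.sum_boole]
      have h2 : {p | p ∈ (φ '' {x | ∃ m ∈ M, x = m * g}) ∧ p ∈ l}
          = φ '' (((Finset.univ.filter (fun x => φ x ∈ l)).filter (fun x => x * g⁻¹ ∈ M) :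
              Finset G) : Set G) := by
        ext p
        constructor
        · rintro ⟨⟨x, ⟨m, hm, rfl⟩, rfl⟩, hp⟩
          refine ⟨m * g, ?_, rfl⟩
          simp [hp, hm]
        · rintro ⟨x, hx, rfl⟩
          simp only [Finset.coe_filter, Finset.mem_filter, Finset.mem_univ, true_and,
            Set.mem_ofPred_eq] at hx
          exact ⟨⟨x, ⟨x * g⁻¹, hx.2, by simp⟩, rfl⟩, hx.1⟩
      have h3 := harc g l
      rw [h2, Set.ncard_image_of_injective _ hφ, Set.ncard_coe_finset] at h3
      rcases h3 with h3 | h3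
      · rw [h3]; simp
      · rw [h3]
        have : (2 : ℕ) ^ (b - 1) = 2 * 2 ^ (b - 2) := by
          rw [← pow_succ']; congr 1; omega
        rw [this]
        push_cast
        have : (2 : ZMod 2) = 0 := by decide
        rw [this, zero_mul]
    have hdvd : 2 ∣ (K.filter (fun x => φ x ∈ l)).card :=
      (ZMod.natCast_eq_zero_iff _ _).1 heven
    have hmem : x0 ∈ K.filter (fun x => φ x ∈ l) := by simp [hx0, hl]
    have hpos : 0 < (K.filter (fun x => φ x ∈ l)).card := Finset.card_pos.2 ⟨x0, hmem⟩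
    have h2 : 1 < (K.filter (fun x => φ x ∈ l)).card := by omega
    obtain ⟨x1, hx1, hne⟩ := Finset.exists_mem_ne h2 x0
    rw [Finset.mem_filter] at hx1
    exact ⟨x1, hx1.1, hne, hx1.2⟩
  choose! ψ hψK hψne hψl using key
  have hcount := ProjectivePlane.lineCount_eq (P := P) (L := L) (φ x0)
  rw [hord, lineCount] at hcount
  have hinj : Function.Injective
      (fun l : {l : L // φ x0 ∈ l} => (⟨ψ l.1, Finset.mem_erase.2
        ⟨hψne l.1 l.2, hψK l.1 l.2⟩⟩ : {x // x ∈ K.erase x0})) := by
    intro l l' h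
    have h' : ψ l.1 = ψ l'.1 := congrArg Subtype.val h
    have h1 : φ (ψ l.1) ∈ l.1 := hψl l.1 l.2
    have h2 : φ (ψ l.1) ∈ l'.1 := by rw [h']; exact hψl l'.1 l'.2
    have h3 := Nondegenerate.eq_or_eq l.2 h1 l'.2 h2
    rcases h3 with h3 | h3
    · exact absurd (hφ h3).symm (hψne l.1 l.2)
    · exact Subtype.ext h3
  have hle := Nat.card_le_card_of_injective _ hinj
  rw [hcount, Nat.card_eq_fintype_card, Fintype.card_coe, Finset.card_erase_of_mem hx0] at hle
  omega

/-! ### The case `b = 2`: the group `Z₈ × Z₂` -/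

/-- A Hadamard difference set in `Z₈ × Z₂` whose code has minimum weight `4`. -/
def M2 : Finset (Multiplicative (ZMod 8 × ZMod 2)) :=
  {Multiplicative.ofAdd (0, 0), Multiplicative.ofAdd (0, 1), Multiplicative.ofAdd (1, 0),
    Multiplicative.ofAdd (2, 0), Multiplicative.ofAdd (5, 1), Multiplicative.ofAdd (6, 0)}

theorem M2_diffSet : IsHadamardDiffSet 2 M2 := by
  constructor
  · decide
  · decide +kernel

end Pool.Agent.H.MP_82bed6_co
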