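import Pool.Agent.H.MP_82bed6_co.Basic

set_option autoImplicit false

namespace Pool.Agent.H.MP_82bed6_co

open Configuration Finset

/-- The Boolean ring `F₂ × F₂^n`. -/
abbrev R (n : ℕ) : Type := ZMod 2 × (Fin n → ZMod 2)

theorem zmod2_mul_self (a : ZMod 2) : a * a = a := by revert a; decide

theorem zmod2_add_self (a : ZMod 2) : a + a = 0 := by revert a; decide

theorem R_mul_self {n : ℕ} (x : R n) : x * x = x := by
  ext
  · exact zmod2_mul_self _
  · exact zmod2_mul_self _

theorem R_add_self {n : ℕ} (x : R n) : x + x = 0 := by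
  ext
  · exact zmod2_add_self _
  · exact zmod2_add_self _

/-- The underlying set of the group: pairs `(w, u)`, thought of as `w + 2u` in `Z₄^(n+1)`. -/
@[ext]
structure TG (n : ℕ) : Type where
  /-- low bits -/
  w : R n
  /-- high bits -/
  u : R n
deriving DecidableEq

namespace TG

variable {n : ℕ}

/-- Addition with carry, written multiplicatively; the group is isomorphic to `Z₄^(n+1)`. -/
instance : CommGroup (TG n) where
  mul a b := ⟨a.w + b.w, a.u + b.u + a.w * b.w⟩
  one := ⟨0, 0⟩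
  inv a := ⟨a.w, a.u + a.w⟩
  mul_assoc a b c := by
    apply TG.ext
    · change a.w + b.w + c.w = a.w + (b.w + c.w)
      ring
    · change a.u + b.u + a.w * b.w + c.u + (a.w + b.w) * c.w
        = a.u + (b.u + c.u + b.w * c.w) + a.w * (b.w + c.w)
      ring
  one_mul a := by
    apply TG.ext
    · change 0 + a.w = a.w
      ring
    · change 0 + a.u + 0 * a.w = a.u
      ring
  mul_one a := by
    apply TG.ext
    · change a.w + 0 = a.w
      ring
    · change a.u + 0 + a.w * 0 = a.u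
      ring
  inv_mul_cancel a := by
    apply TG.ext
    · change a.w + a.w = 0
      exact R_add_self _
    · change a.u + a.w + a.u + a.w * a.w = 0
      rw [R_mul_self]
      have : a.u + a.w + a.u + a.w = (a.u + a.u) + (a.w + a.w) := by ring
      rw [this, R_add_self, R_add_self, add_zero]
  mul_comm a b := by
    apply TG.ext
    · change a.w + b.w = b.w + a.w
      ring
    · change a.u + b.u + a.w * b.w = b.u + a.u + b.w * a.w
      ring

@[simp] theorem mul_w (a b : TG n) : (a * b).w = a.w + b.w := rfl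
@[simp] theorem mul_u (a b : TG n) : (a * b).u = a.u + b.u + a.w * b.w := rfl
@[simp] theorem one_w : (1 : TG n).w = 0 := rfl
@[simp] theorem one_u : (1 : TG n).u = 0 := rfl
@[simp] theorem inv_w (a : TG n) : (a⁻¹).w = a.w := rfl
@[simp] theorem inv_u (a : TG n) : (a⁻¹).u = a.u + a.w := rfl

/-- Underlying equivalence with pairs. -/
def equiv (n : ℕ) : TG n ≃ R n × R n where
  toFun a := (a.w, a.u)
  invFun p := ⟨p.1, p.2⟩
  left_inv _ := rfl
  right_inv _ := rfl

instance : Fintype (TG n) := Fintype.ofEquiv _ (equiv n).symm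

theorem card_R (n : ℕ) : Fintype.card (R n) = 2 ^ (n + 1) := by
  simp [R, ZMod.card, pow_succ, mul_comm]

theorem card_TG (n : ℕ) : Fintype.card (TG n) = 2 ^ (2 * (n + 1)) := by
  rw [Fintype.card_congr (equiv n), Fintype.card_prod, card_R, ← pow_add]
  congr 1
  ring

theorem sum_TG {M : Type*} [AddCommMonoid M] (F : TG n → M) :
    ∑ x, F x = ∑ w : R n, ∑ u : R n, F ⟨w, u⟩ := by
  rw [← (equiv n).symm.sum_comp, Fintype.sum_prod_type]
  rfl

end TG

/-- `δ(v) = 1` if `v = 0` and `0` otherwise. -/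
def dl {n : ℕ} (v : Fin n → ZMod 2) : ZMod 2 := if v = 0 then 1 else 0

/-- The bijection `π`. -/
def pi {n : ℕ} (w : R n) : R n := (w.1 + dl w.2, w.2)

theorem pi_pi {n : ℕ} (w : R n) : pi (pi w) = w := by
  unfold pi
  ext
  · change w.1 + dl w.2 + dl w.2 = w.1
    rw [add_assoc, zmod2_add_self, add_zero]
  · rfl

/-- `π` as an equivalence. -/
def piE (n : ℕ) : R n ≃ R n where
  toFun := pi
  invFun := pi
  left_inv := pi_pi
  right_inv := pi_pi

/-- The standard pairing. -/
def pr {n : ℕ} (u v : R n) : ZMod 2 := u.1 * v.1 + ∑ j, u.2 j * v.2 j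

theorem pr_add_left {n : ℕ} (u u' v : R n) : pr (u + u') v = pr u v + pr u' v := by
  simp [pr, add_mul, Finset.sum_add_distrib]
  ring

theorem pr_add_right {n : ℕ} (u v v' : R n) : pr u (v + v') = pr u v + pr u v' := by
  simp [pr, mul_add, Finset.sum_add_distrib]
  ring

/-- The sign character of `F₂`. -/
def sg (a : ZMod 2) : ℤ := if a = 0 then 1 else -1

theorem sg_add (a b : ZMod 2) : sg (a + b) = sg a * sg b := by revert a b; decide

theorem sg_zero : sg 0 = 1 := rfl

theorem sg_one : sg 1 = -1 := by decide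

theorem exists_pr_eq_one {n : ℕ} (v : R n) (hv : v ≠ 0) : ∃ e : R n, pr e v = 1 := by
  by_cases h1 : v.1 = 0
  · have h2 : ∃ j, v.2 j ≠ 0 := by
      by_contra h
      push Not at h
      apply hv
      ext
      · exact h1
      · exact h _
    obtain ⟨j, hj⟩ := h2
    have hj1 : v.2 j = 1 := by
      revert hj; generalize v.2 j = a; revert a; decide
    refine ⟨(0, Pi.single j 1), ?_⟩
    simp only [pr, zero_mul, zero_add]
    rw [Finset.sum_eq_single j]
    · simp [hj1]
    · intro k _ hk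
      simp [Pi.single_eq_of_ne hk]
    · simp
  · have : v.1 = 1 := by
      revert h1; generalize v.1 = a; revert a; decide
    exact ⟨(1, 0), by simp [pr, this]⟩

theorem sum_sg_pr {n : ℕ} (v : R n) (hv : v ≠ 0) : ∑ u : R n, sg (pr u v) = 0 := by
  obtain ⟨e, he⟩ := exists_pr_eq_one v hv
  have h : ∑ u : R n, sg (pr u v) = ∑ u : R n, sg (pr (u + e) v) :=
    (Equiv.sum_comp (Equiv.addRight e) (fun u => sg (pr u v))).symm
  have h2 : ∑ u : R n, sg (pr (u + e) v) = - ∑ u : R n, sg (pr u v) := by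
    rw [← Finset.sum_neg_distrib]
    apply Finset.sum_congr rfl
    intro u _
    rw [pr_add_left, he, sg_add, sg_one]
    ring
  linarith

theorem pr_comm {n : ℕ} (u v : R n) : pr u v = pr v u := by
  simp [pr, mul_comm]

theorem pr_zero {n : ℕ} (u : R n) : pr u 0 = 0 := by simp [pr]

theorem zero_pr {n : ℕ} (u : R n) : pr 0 u = 0 := by simp [pr]

/-- The Boolean function defining the difference set. -/
def FF {n : ℕ} (x : TG n) : ZMod 2 := pr x.u (pi x.w)

/-- The difference set. -/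
def MM (n : ℕ) : Finset (TG n) := univ.filter (fun x => FF x = 1)

theorem sum_one_R (n : ℕ) : ∑ _u : R n, (1 : ℤ) = 2 ^ (n + 1) := by
  rw [Finset.sum_const, Finset.card_univ, TG.card_R, nsmul_eq_mul, mul_one]
  norm_num

theorem FF_mk {n : ℕ} (w u : R n) : FF ⟨w, u⟩ = pr u (pi w) := rfl

theorem sum_f (n : ℕ) : ∑ x : TG n, sg (FF x) = 2 ^ (n + 1) := by
  rw [TG.sum_TG]
  have h1 : ∀ w : R n, (∑ u : R n, sg (FF ⟨w, u⟩))
      = if pi w = 0 then (2 ^ (n + 1) : ℤ) else 0 := by
    intro w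
    have h0 : (∑ u : R n, sg (FF ⟨w, u⟩)) = ∑ u : R n, sg (pr u (pi w)) := by
      apply Finset.sum_congr rfl
      intro u _
      rw [FF_mk]
    rw [h0]
    by_cases h : pi w = 0
    · rw [if_pos h, h, ← sum_one_R]
      apply Finset.sum_congr rfl
      intro u _
      rw [pr_zero, sg_zero]
    · rw [if_neg h]
      exact sum_sg_pr _ h
  rw [Finset.sum_congr rfl (fun w _ => h1 w)]
  have h2 : ∑ w : R n, (if pi w = 0 then (2 ^ (n + 1) : ℤ) else 0)
      = ∑ w : R n, (if w = 0 then (2 ^ (n + 1) : ℤ) else 0) :=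
    Equiv.sum_comp (piE n) (fun w => if w = 0 then (2 ^ (n + 1) : ℤ) else 0)
  rw [h2, Finset.sum_ite_eq' univ (0 : R n) (fun _ => (2 ^ (n + 1) : ℤ)), if_pos (mem_univ _)]

theorem sum_corr (n : ℕ) (g : TG n) (hg : g ≠ 1) :
    ∑ x : TG n, sg (FF x) * sg (FF (g * x)) = 0 := by
  rw [TG.sum_TG]
  have h1 : ∀ w : R n, (∑ u : R n, sg (FF ⟨w, u⟩) * sg (FF (g * ⟨w, u⟩)))
      = sg (pr (g.u + g.w * w) (pi (g.w + w))) * ∑ u : R n, sg (pr u (pi w + pi (g.w + w))) := by
    intro w
    rw [Finset.mul_sum]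
    apply Finset.sum_congr rfl
    intro u _
    simp only [FF, TG.mul_w, TG.mul_u]
    rw [← sg_add, ← sg_add]
    congr 1
    rw [pr_add_right]
    have : g.u + u + g.w * w = (g.u + g.w * w) + u := by ring
    rw [this, pr_add_left]
    ring
  simp_rw [h1]
  by_cases hc : g.w = 0
  · have hu : g.u ≠ 0 := by
      intro h
      apply hg
      apply TG.ext
      · exact hc
      · exact h
    have h2 : ∀ w : R n, sg (pr (g.u + g.w * w) (pi (g.w + w)))
        * ∑ u : R n, sg (pr u (pi w + pi (g.w + w))) = 2 ^ (n + 1) * sg (pr (pi w) g.u) := by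
      intro w
      rw [hc, zero_mul, add_zero, zero_add, R_add_self]
      have h4 : ∑ u : R n, sg (pr u 0) = 2 ^ (n + 1) := by
        rw [← sum_one_R]
        apply Finset.sum_congr rfl
        intro u _
        rw [pr_zero, sg_zero]
      rw [h4, pr_comm, mul_comm]
    simp_rw [h2]
    have h3 : ∑ w : R n, sg (pr (pi w) g.u) = ∑ w : R n, sg (pr w g.u) :=
      Equiv.sum_comp (piE n) (fun w => sg (pr w g.u))
    rw [← Finset.mul_sum, h3, sum_sg_pr _ hu, mul_zero]
  · apply Finset.sum_eq_zero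
    intro w _
    rw [sum_sg_pr, mul_zero]
    intro h
    apply hc
    have h3 : pi w = pi (g.w + w) := by
      have : pi w + pi (g.w + w) + pi (g.w + w) = pi (g.w + w) := by rw [h, zero_add]
      rw [add_assoc, R_add_self, add_zero] at this
      exact this
    have h4 : w = g.w + w := (piE n).injective h3
    have : g.w + w - w = 0 := by rw [← h4]; simp
    simpa using this

theorem sg_ind (a : ZMod 2) : (2 : ℤ) * (if a = 1 then 1 else 0) = 1 - sg a := by
  revert a; decide

theorem card_MM (n : ℕ) : (MM n).card = 2 ^ (2 * (n + 1) - 1) - 2 ^ ((n + 1) - 1) := by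
  have h1 : ((MM n).card : ℤ) = ∑ x : TG n, if FF x = 1 then 1 else 0 := by
    rw [MM, Finset.sum_boole]
  have h2 : 2 * ((MM n).card : ℤ) = 2 ^ (2 * (n + 1)) - 2 ^ (n + 1) := by
    rw [h1, Finset.mul_sum]
    simp_rw [sg_ind]
    rw [Finset.sum_sub_distrib, sum_f]
    simp [TG.card_TG]
  have h3 : (2 : ℤ) ^ (2 * (n + 1)) = 2 * 2 ^ (2 * (n + 1) - 1) := by
    rw [← pow_succ']; congr 1
  have h4 : (2 : ℤ) ^ (n + 1) = 2 * 2 ^ (n + 1 - 1) := by
    rw [← pow_succ']; congr 1
  have h5 : ((MM n).card : ℤ) = 2 ^ (2 * (n + 1) - 1) - 2 ^ (n + 1 - 1) := by linarith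
  have h6 : (2 : ℕ) ^ (n + 1 - 1) ≤ 2 ^ (2 * (n + 1) - 1) :=
    Nat.pow_le_pow_right (by norm_num) (by omega)
  zify [h6]
  exact h5

theorem card_pairs (n : ℕ) (g : TG n) :
    ((MM n ×ˢ MM n).filter (fun p => g = p.1 * p.2⁻¹)).card
      = (univ.filter (fun x : TG n => FF x = 1 ∧ FF (g * x) = 1)).card := by
  symm
  apply Finset.card_bij (fun x _ => (g * x, x))
  · intro x hx
    simp only [mem_filter, mem_univ, true_and] at hx
    simp [MM, hx.1, hx.2]
  · intro x _ y _ h
    exact (Prod.ext_iff.1 h).2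
  · rintro ⟨p1, p2⟩ hp
    simp only [mem_filter, mem_product, MM, mem_univ, true_and] at hp
    obtain ⟨⟨h1, h2⟩, h3⟩ := hp
    refine ⟨p2, ?_, ?_⟩
    · simp [h3, h1, h2]
    · simp [h3]

theorem sg_ind2 (a c : ZMod 2) : (4 : ℤ) * (if a = 1 ∧ c = 1 then 1 else 0)
    = 1 - sg a - sg c + sg a * sg c := by
  revert a c; decide

theorem MM_diffSet (n : ℕ) : IsHadamardDiffSet (n + 1) (MM n) := by
  refine ⟨card_MM n, ?_⟩
  intro g hg
  rw [card_pairs]
  have h1 : (((univ.filter (fun x : TG n => FF x = 1 ∧ FF (g * x) = 1)).card : ℕ) : ℤ)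
      = ∑ x : TG n, if FF x = 1 ∧ FF (g * x) = 1 then 1 else 0 := by
    rw [Finset.sum_boole]
  have h2 : 4 * (((univ.filter (fun x : TG n => FF x = 1 ∧ FF (g * x) = 1)).card : ℕ) : ℤ)
      = 2 ^ (2 * (n + 1)) - 2 * 2 ^ (n + 1) := by
    rw [h1, Finset.mul_sum]
    simp_rw [sg_ind2]
    rw [Finset.sum_add_distrib, Finset.sum_sub_distrib, Finset.sum_sub_distrib, sum_f,
      sum_corr n g hg]
    have h5 : ∑ x : TG n, sg (FF (g * x)) = ∑ x : TG n, sg (FF x) :=
      Equiv.sum_comp (Equiv.mulLeft g) (fun x => sg (FF x))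
    rw [h5, sum_f]
    simp [TG.card_TG]
    ring
  have h3 : (2 : ℤ) ^ (2 * (n + 1)) = 4 * 2 ^ (2 * (n + 1) - 2) := by
    have : (4 : ℤ) = 2 ^ 2 := by norm_num
    rw [this, ← pow_add]; congr 1
    omega
  have h4 : (2 : ℤ) ^ (n + 1) = 2 * 2 ^ (n + 1 - 1) := by
    rw [← pow_succ']; congr 1
  have h5 : (((univ.filter (fun x : TG n => FF x = 1 ∧ FF (g * x) = 1)).card : ℕ) : ℤ)
      = 2 ^ (2 * (n + 1) - 2) - 2 ^ (n + 1 - 1) := by linarith
  have h6 : (2 : ℕ) ^ (n + 1 - 1) ≤ 2 ^ (2 * (n + 1) - 2) :=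
    Nat.pow_le_pow_right (by norm_num) (by omega)
  zify [h6]
  exact h5

end Pool.Agent.H.MP_82bed6_co
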