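import Pool.Agent.H.MP_82bed6_co.Family

set_option autoImplicit false

namespace Pool.Agent.H.MP_82bed6_co

open Configuration Finset

/-- The translates used to produce the low weight word. -/
def gg {n : ℕ} : Bool ⊕ (Fin n → ZMod 2) → TG n
  | Sum.inl false => 1
  | Sum.inl true => ⟨(1, 0), 0⟩
  | Sum.inr s => ⟨(0, s), 0⟩

/-- A coset of the elementary abelian subgroup of order `2^(n+1)`. -/
def KK (n : ℕ) : Finset (TG n) := univ.filter (fun x => x.w = (1, 0))

theorem ind_eq (a : ZMod 2) : (if a = 1 then (1 : ZMod 2) else 0) = a := by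
  revert a; decide

theorem mem_MM {n : ℕ} (x : TG n) : x ∈ MM n ↔ FF x = 1 := by simp [MM]

theorem FF_one {n : ℕ} (x : TG n) :
    FF (x * gg (Sum.inl false)) = x.u.1 * (x.w.1 + dl x.w.2) + ∑ j, x.u.2 j * x.w.2 j := by
  change FF (x * 1) = _
  rw [mul_one]
  rfl

theorem FF_g1 {n : ℕ} (x : TG n) :
    FF (x * gg (Sum.inl true)) = (x.u.1 + x.w.1) * (x.w.1 + 1 + dl x.w.2)
      + ∑ j, x.u.2 j * x.w.2 j := by
  change pr (x.u + 0 + x.w * (1, 0)) (pi (x.w + (1, 0))) = _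
  simp [pr, pi]

theorem FF_gs {n : ℕ} (x : TG n) (s : Fin n → ZMod 2) :
    FF (x * gg (Sum.inr s)) = x.u.1 * x.w.1 + x.u.1 * dl (x.w.2 + s)
      + ∑ j, x.u.2 j * x.w.2 j + ∑ j, x.u.2 j * s j := by
  change pr (x.u + 0 + x.w * (0, s)) (pi (x.w + (0, s))) = _
  have h : pr (x.u + 0 + x.w * (0, s)) (pi (x.w + (0, s)))
      = x.u.1 * (x.w.1 + dl (x.w.2 + s))
        + ∑ j, (x.u.2 j + x.w.2 j * s j) * (x.w.2 j + s j) := by
    simp [pr, pi]
  rw [h]
  have h2 : ∀ j, (x.u.2 j + x.w.2 j * s j) * (x.w.2 j + s j)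
      = x.u.2 j * x.w.2 j + x.u.2 j * s j := by
    intro j
    generalize x.u.2 j = a
    generalize x.w.2 j = c
    generalize s j = d
    revert a c d
    decide
  rw [Finset.sum_congr rfl (fun j _ => h2 j), Finset.sum_add_distrib]
  ring

theorem sum_const_zero {n : ℕ} (hn : 1 ≤ n) (a : ZMod 2) :
    ∑ _s : Fin n → ZMod 2, a = 0 := by
  rw [Finset.sum_const, Finset.card_univ, Fintype.card_fun, ZMod.card, Fintype.card_fin]
  have : 2 ^ n = 2 * 2 ^ (n - 1) := by rw [← pow_succ']; congr 1; omega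
  rw [this, mul_nsmul]
  have h2 : (2 : ℕ) • a = 0 := by revert a; decide
  rw [h2, smul_zero]

theorem sum_coord_zero {n : ℕ} (hn : 2 ≤ n) (j : Fin n) :
    ∑ s : Fin n → ZMod 2, s j = 0 := by
  have : ∃ k : Fin n, k ≠ j := by
    by_cases h : j = ⟨0, by omega⟩
    · exact ⟨⟨1, by omega⟩, by rw [h]; intro h'; simp at h'⟩
    · exact ⟨⟨0, by omega⟩, fun h' => h h'.symm⟩
  obtain ⟨k, hk⟩ := this
  have h1 : ∀ (s : Fin n → ZMod 2) (_ : s ∈ (univ : Finset (Fin n → ZMod 2))),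
      s j + (s + (Pi.single k 1 : Fin n → ZMod 2)) j = 0 := by
    intro s _
    simp only [Pi.add_apply, Pi.single_eq_of_ne hk.symm, add_zero]
    exact zmod2_add_self _
  refine Finset.sum_involution (fun (s : Fin n → ZMod 2) _ => s + (Pi.single k 1 : Fin n → ZMod 2))
    h1 ?_ ?_ ?_
  · intro s _ _ h
    have h1 := congrFun h k
    simp at h1
  · intro s _
    exact mem_univ _
  · intro s _
    ext i
    simp only [Pi.add_apply, add_assoc]
    rw [zmod2_add_self, add_zero]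

theorem sum_dl {n : ℕ} (v : Fin n → ZMod 2) : ∑ s : Fin n → ZMod 2, dl (v + s) = 1 := by
  have h : ∑ s : Fin n → ZMod 2, dl (v + s) = ∑ s : Fin n → ZMod 2, dl s :=
    Equiv.sum_comp (Equiv.addLeft v) (fun s => dl s)
  rw [h]
  unfold dl
  rw [Finset.sum_ite_eq' univ (0 : Fin n → ZMod 2) (fun _ => (1 : ZMod 2)), if_pos (mem_univ _)]

theorem sum_gs {n : ℕ} (hn : 2 ≤ n) (x : TG n) :
    ∑ s : Fin n → ZMod 2, FF (x * gg (Sum.inr s)) = x.u.1 := by
  simp_rw [FF_gs]
  rw [Finset.sum_add_distrib, Finset.sum_add_distrib, Finset.sum_add_distrib,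
    sum_const_zero (by omega), sum_const_zero (by omega), ← Finset.mul_sum, sum_dl,
    Finset.sum_comm]
  have h : ∑ j, ∑ s : Fin n → ZMod 2, x.u.2 j * s j = 0 := by
    apply Finset.sum_eq_zero
    intro j _
    rw [← Finset.mul_sum, sum_coord_zero hn, mul_zero]
  rw [h]
  ring

theorem span_MM {n : ℕ} (hn : 2 ≤ n) (x : TG n) :
    (∑ i, if x * ((gg i)⁻¹)⁻¹ ∈ MM n then (1 : ZMod 2) else 0) = if x ∈ KK n then 1 else 0 := by
  have h1 : ∀ i : Bool ⊕ (Fin n → ZMod 2), (if x * ((gg i)⁻¹)⁻¹ ∈ MM n then (1 : ZMod 2) else 0)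
      = FF (x * gg i) := by
    intro i
    rw [inv_inv]
    simp only [mem_MM]
    exact ind_eq _
  rw [Finset.sum_congr rfl (fun i _ => h1 i), Fintype.sum_sum_type, Fintype.sum_bool,
    sum_gs hn, FF_one, FF_g1]
  have h2 : (if x ∈ KK n then (1 : ZMod 2) else 0) = x.w.1 * dl x.w.2 := by
    have : x ∈ KK n ↔ (x.w.1 = 1 ∧ x.w.2 = 0) := by
      simp [KK, Prod.ext_iff]
    simp only [this, dl]
    by_cases h : x.w.2 = 0
    · simp only [h, and_true, if_true, mul_one]
      exact ind_eq _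
    · simp [h]
  rw [h2]
  generalize ∑ j, x.u.2 j * x.w.2 j = c
  generalize x.w.1 = a
  generalize x.u.1 = d
  generalize dl x.w.2 = e
  revert a c d e
  decide

theorem card_KK (n : ℕ) : (KK n).card = 2 ^ (n + 1) := by
  rw [← TG.card_R n, ← Finset.card_univ]
  symm
  apply Finset.card_bij (fun u _ => (⟨(1, 0), u⟩ : TG n))
  · intro u _
    simp [KK]
  · intro u _ v _ h
    exact congrArg TG.u h
  · rintro ⟨w, u⟩ h
    simp only [KK, mem_filter, mem_univ, true_and] at h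
    exact ⟨u, mem_univ _, by rw [h]⟩

theorem MM_no_embed {n : ℕ} (hn : 2 ≤ n)
    (P L : Type*) [Membership P L] [ProjectivePlane P L] [Finite P] [Finite L]
    (hord : ProjectivePlane.order P L = 2 ^ (n + 1)) :
    ¬ EmbedsAsMaximalArcs (n + 1) (MM n) P L := by
  apply no_embed (n + 1) (by omega) (MM n) (KK n) (fun i => (gg i)⁻¹) ⟨(1, 0), 0⟩
  · simp [KK]
  · rw [card_KK]; omega
  · exact span_MM hn
  · exact hord

/-- Index of the translates for `b = 2`. -/
def g2 : Fin 4 → Multiplicative (ZMod 8 × ZMod 2) :=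
  ![Multiplicative.ofAdd (0, 0), Multiplicative.ofAdd (1, 0), Multiplicative.ofAdd (2, 0),
    Multiplicative.ofAdd (7, 1)]

/-- A word of weight `4` in the code of `dev M2`. -/
def K2 : Finset (Multiplicative (ZMod 8 × ZMod 2)) :=
  {Multiplicative.ofAdd (2, 0), Multiplicative.ofAdd (2, 1), Multiplicative.ofAdd (6, 0),
    Multiplicative.ofAdd (6, 1)}

theorem M2_no_embed
    (P L : Type*) [Membership P L] [ProjectivePlane P L] [Finite P] [Finite L]
    (hord : ProjectivePlane.order P L = 2 ^ 2) :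
    ¬ EmbedsAsMaximalArcs 2 M2 P L := by
  apply no_embed 2 le_rfl M2 K2 g2 (Multiplicative.ofAdd (2, 0))
  · decide
  · decide
  · decide +kernel
  · exact hord

end Pool.Agent.H.MP_82bed6_co
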